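import Pool.Agent.helper87.X4.Spec

set_option autoImplicit false

namespace Pool.Agent.X4

open Matrix Pool.Agent.PL

theorem HG (hGE : GE_stmt) (hBX : BX_stmt) (hDL : DL_stmt) (hDB : DB_stmt) : HG_stmt := by
  intro N h hc T hT
  obtain ⟨X, hX1, hX2⟩ := hGE N h hc
  have hXT : ∀ m, ∀ t ∈ T m, der X m (up ℝ t) = 0 := by
    intro m t ht
    rw [← hX1]
    exact hT m ht
  have hspan := hBX ℝ N T X hXT
  constructor
  · intro m t ht
    have key : ∀ A ∈ Submodule.span ℝ (cst ℝ '' Kil T), der A m (up ℝ t) = 0 := by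
      intro A hA
      induction hA using Submodule.span_induction with
      | mem x hx =>
        obtain ⟨Y, hY, rfl⟩ := hx
        rw [← hDB, ht Y hY]
        funext I
        show ((0 : ℚ) : ℝ) = 0
        simp
      | zero =>
        have h0 := (hDL N m ℝ 0 0 (up ℝ t) (up ℝ t) 0).2.1
        rw [zero_smul, zero_smul] at h0
        exact h0
      | add x y _ _ hx hy =>
        rw [(hDL N m ℝ x y (up ℝ t) (up ℝ t) 0).1, hx, hy, add_zero]
      | smul a x _ hx =>
        rw [(hDL N m ℝ x x (up ℝ t) (up ℝ t) a).2.1, hx, smul_zero]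
    intro z
    exact (hX1 m (up ℝ t)).2 (key X hspan) z
  · intro Y hY z
    have key : ∀ A ∈ Submodule.span ℝ (cst ℝ '' Kil T), A * cst ℝ Y = cst ℝ Y * A := by
      intro A hA
      induction hA using Submodule.span_induction with
      | mem x hx =>
        obtain ⟨Z, hZ, rfl⟩ := hx
        have e := congrArg (cst ℝ) (hY Z hZ)
        unfold cst at e ⊢
        have m1 : (Z * Y).map (fun a : ℚ => (a : ℝ)) =
            Z.map (fun a : ℚ => (a : ℝ)) * Y.map (fun a : ℚ => (a : ℝ)) :=
          Matrix.map_mul (f := Rat.castHom ℝ)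
        have m2 : (Y * Z).map (fun a : ℚ => (a : ℝ)) =
            Y.map (fun a : ℚ => (a : ℝ)) * Z.map (fun a : ℚ => (a : ℝ)) :=
          Matrix.map_mul (f := Rat.castHom ℝ)
        rw [← m1, ← m2]
        exact e
      | zero => rw [zero_mul, mul_zero]
      | add x y _ _ hx hy => rw [add_mul, mul_add, hx, hy]
      | smul a x _ hx => rw [smul_mul_assoc, mul_smul_comm, hx]
    exact (hX2 (cst ℝ Y)).2 (key X hspan) z

end Pool.Agent.X4
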